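import Pool.Agent.Q314.SC.Sim

/-!
# Q1: `SSC^{-ε}(1,1) = SC^{-ε}(1,1)`

Every language generated by a propagating semi-conditional grammar of degree `(1,1)` is generated
by a propagating simple semi-conditional grammar of degree `(1,1)`, over every finite terminal
alphabet `T`.
-/

set_option autoImplicit false

namespace Pool.Agent.Results.MP_84f0c5_lc.SimpleSuffices

open Pool.Agent.Q314.SC

/-- The two families of languages coincide. -/
theorem result : ∀ (T : Type) [Finite T], SSCprop T 1 1 = SCprop T 1 1 :=
  fun T _ => Sim.main T

end Pool.Agent.Results.MP_84f0c5_lc.SimpleSuffices
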